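import Pool.Agent.Lib.helper82.CookLevin

/-!
Exact bin packing with numbers in unary is NP-hard: a direct reduction from three-satisfiability.
-/

set_option autoImplicit false

namespace Pool.Agent.H8

open Pool.Agent.H82 Pool.Agent.PolyT Finset

/-- The items `j < n` of sizes `s j` fit into the bins `b < m` of capacities `B b`. -/
def PackF (n m : ℕ) (s B : ℕ → ℕ) : Prop :=
  ∃ f : ℕ → ℕ, (∀ j < n, f j < m) ∧ ∀ b < m, ∑ j ∈ (range n).filter (fun j => f j = b), s j ≤ B b

/-- Some of the items fill the bins exactly. -/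
def ExactF (n m : ℕ) (s B : ℕ → ℕ) : Prop :=
  ∃ f : ℕ → ℕ, ∀ b < m, ∑ j ∈ (range n).filter (fun j => f j = b), s j = B b

theorem sum_fib {n m : ℕ} (s f : ℕ → ℕ) (hf : ∀ j < n, f j < m) :
    ∑ b ∈ range m, ∑ j ∈ (range n).filter (fun j => f j = b), s j = ∑ j ∈ range n, s j :=
  sum_fiberwise_of_maps_to (fun j hj => mem_range.2 (hf j (mem_range.1 hj))) s

theorem garbage (n m : ℕ) (s B s' B' : ℕ → ℕ) (h1 : ∀ j < n, s' j = s j)
    (h2 : s' n = ∑ b ∈ range m, B b + 2) (h3 : ∀ b < m, B' b = B b)
    (h4 : B' m = ∑ j ∈ range n, s j + 2) : PackF (n + 1) (m + 1) s' B' ↔ ExactF n m s B := by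
  have h5 : ∑ j ∈ range n, s' j = ∑ j ∈ range n, s j :=
    sum_congr rfl fun j hj => h1 j (mem_range.1 hj)
  have h6 : ∑ b ∈ range m, B' b = ∑ b ∈ range m, B b :=
    sum_congr rfl fun j hj => h3 j (mem_range.1 hj)
  have key : ∀ f : ℕ → ℕ, f n = m → ∀ b < m,
      ∑ j ∈ (range (n + 1)).filter (fun j => f j = b), s' j =
        ∑ j ∈ (range n).filter (fun j => f j = b), s j := by
    intro f hf b hb
    rw [range_add_one, filter_insert, if_neg (by omega)]
    exact sum_congr rfl fun j hj => h1 j (mem_range.1 (mem_filter.1 hj).1)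
  constructor
  · rintro ⟨f, hf, h⟩
    have h7 : f n = m := by
      by_contra hc
      have h8 := hf n (by omega)
      have h9 := h (f n) h8
      have h10 : s' n ≤ ∑ j ∈ (range (n + 1)).filter (fun j => f j = f n), s' j :=
        single_le_sum (f := s') (fun _ _ => Nat.zero_le _) (by simp)
      have h11 : B (f n) ≤ ∑ b ∈ range m, B b :=
        single_le_sum (f := B) (fun _ _ => Nat.zero_le _) (mem_range.2 (by omega))
      have := h3 (f n) (by omega)
      omega
    have h8 := sum_fib s' f hf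
    have h9 := (sum_eq_sum_iff_of_le (s := range (m + 1)) fun b hb => h b (mem_range.1 hb)).1
      (by rw [h8, sum_range_succ, sum_range_succ]; omega)
    exact ⟨f, fun b hb => by rw [← key f h7 b hb, h9 b (mem_range.2 (by omega)), h3 b hb]⟩
  · rintro ⟨f, h⟩
    set f' : ℕ → ℕ := fun j => if j < n ∧ f j < m then f j else m with hf'
    have h7 : ∀ j < n + 1, f' j < m + 1 := fun j _ => by
      simp only [hf']
      split_ifs <;> omega
    have h8 : ∀ b < m, ∑ j ∈ (range (n + 1)).filter (fun j => f' j = b), s' j = B b := by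
      intro b hb
      rw [key f' (by simp [hf']) b hb, ← h b hb]
      refine sum_congr (filter_congr fun j hj => ?_) fun _ _ => rfl
      have := mem_range.1 hj
      simp only [hf']
      split_ifs <;> omega
    refine ⟨f', h7, fun b hb => ?_⟩
    rcases Nat.lt_succ_iff_lt_or_eq.1 hb with hb | hb
    · rw [h8 b hb, h3 b hb]
    · have h9 := sum_fib s' f' h7
      have h10 : ∑ b ∈ range m, ∑ j ∈ (range (n + 1)).filter (fun j => f' j = b), s' j =
        ∑ b ∈ range m, B b := sum_congr rfl fun b hb => h8 b (mem_range.1 hb)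
      rw [sum_range_succ, sum_range_succ, h10] at h9
      rw [hb]
      omega

/-- A number with digits `a 0, ..., a (k - 1), 0` in base `W`. -/
def hor (W : ℕ) (a : ℕ → ℕ) : ℕ → ℕ
  | 0 => 0
  | k + 1 => W * (a k + hor W a k)

theorem hor_sum (W : ℕ) (F : Finset ℕ) (a : ℕ → ℕ → ℕ) (k : ℕ) :
    ∑ j ∈ F, hor W (a j) k = hor W (fun d => ∑ j ∈ F, a j d) k := by
  induction k with
  | zero => simp [hor]
  | succ k ih => simp only [hor, ← ih, ← sum_add_distrib, mul_sum]

theorem hor_dvd (W : ℕ) (a : ℕ → ℕ) (k : ℕ) : W ∣ hor W a k := by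
  cases k with
  | zero => exact dvd_zero _
  | succ k => exact dvd_mul_right _ _

theorem hor_inj {W : ℕ} {a b : ℕ → ℕ} {k : ℕ} (ha : ∀ d < k, a d < W) (hb : ∀ d < k, b d < W) :
    hor W a k = hor W b k ↔ ∀ d < k, a d = b d := by
  induction k with
  | zero => simp [hor]
  | succ k ih =>
    have ih := ih (fun d hd => ha d (by omega)) (fun d hd => hb d (by omega))
    have h1 := ha k (by omega)
    have h2 := hb k (by omega)
    simp only [hor]
    constructor
    · intro h
      have h3 := Nat.eq_of_mul_eq_mul_left (by omega) h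
      have h4 : a k = b k := by
        obtain ⟨x, hx⟩ := hor_dvd W a k
        obtain ⟨y, hy⟩ := hor_dvd W b k
        have := congrArg (· % W) h3
        simpa [hx, hy, Nat.mod_eq_of_lt h1, Nat.mod_eq_of_lt h2] using this
      intro d hd
      rcases Nat.lt_succ_iff_lt_or_eq.1 hd with hd | rfl
      · exact ih.1 (by omega) d hd
      · exact h4
    · intro h
      rw [h k (by omega), ih.2 fun d hd => h d (by omega)]

theorem hor_le {W : ℕ} {a : ℕ → ℕ} {k : ℕ} (ha : ∀ d < k, a d < W) :
    hor W a k + W ≤ W ^ (k + 1) := by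
  induction k with
  | zero => simp [hor]
  | succ k ih =>
    have h1 := ih fun d hd => ha d (by omega)
    have h2 := ha k (by omega)
    calc hor W a (k + 1) + W = W * (a k + 1 + hor W a k) := by simp only [hor]; ring
      _ ≤ W * W ^ (k + 1) := Nat.mul_le_mul_left _ (by omega)
      _ = _ := by ring

theorem le_hor {W : ℕ} {a : ℕ → ℕ} {k d : ℕ} (hW : 2 ≤ W) (hd : d < k) (ha : 1 ≤ a d) :
    2 ≤ hor W a k := by
  induction k with
  | zero => omega
  | succ k ih =>
    have : 1 ≤ a k + hor W a k := by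
      rcases Nat.lt_succ_iff_lt_or_eq.1 hd with hd | rfl
      · have := ih hd
        omega
      · omega
    exact hW.trans (Nat.le_mul_of_pos_right _ this)

theorem p_hor {α : Type} [N487b59b3 α] {W : α → ℕ} {a : α → ℕ → ℕ} (hW : PolyT.Poly W)
    (ha : ∀ d, PolyT.Poly (fun x => a x d)) (k : ℕ) : PolyT.Poly (fun x => hor (W x) (a x) k) := by
  induction k with
  | zero => exact PolyT.Poly.const 0
  | succ k ih => exact hW.mul ((ha k).add ih)

/-- The digits of a token (`tk` true, label `w`) or of a selector, which asks the bin `bn` for `r`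
tokens with label `w`. -/
def dig (R D : ℕ) (tk : Bool) (w r bn d : ℕ) : ℕ :=
  (cond tk [1, w, w * w, 0, 0] [R - r, R * D - r * w, R * (D * D) - r * (w * w), 1, bn]).getD d 0

/-- The digits of a bin. -/
def cap (R D b d : ℕ) : ℕ := [R, R * D, R * (D * D), 1, b].getD d 0

theorem sel_iff {R D b : ℕ} {tk : ℕ → Bool} {w r bn : ℕ → ℕ} {F : Finset ℕ}
    (hr : ∀ j ∈ F, r j ≤ R) (hw : ∀ j ∈ F, w j ≤ D) :
    (∀ d < 5, ∑ j ∈ F, dig R D (tk j) (w j) (r j) (bn j) d = cap R D b d) ↔
      ∃ e ∈ F, tk e = false ∧ bn e = b ∧ (∀ j ∈ F.erase e, tk j = true ∧ w j = w e) ∧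
        (F.erase e).card = r e := by
  have key : ∀ e ∈ F, tk e = false → (∀ j ∈ F.erase e, tk j = true) →
      ((∀ d < 5, ∑ j ∈ F, dig R D (tk j) (w j) (r j) (bn j) d = cap R D b d) ↔
        (F.erase e).card = r e ∧ ∑ j ∈ F.erase e, w j = r e * w e ∧
          ∑ j ∈ F.erase e, w j * w j = r e * (w e * w e) ∧ bn e = b) := by
    intro e he h1 h2
    have h3 : ∀ d, ∑ j ∈ F, dig R D (tk j) (w j) (r j) (bn j) d =
        dig R D false (w e) (r e) (bn e) d + ∑ j ∈ F.erase e, dig R D true (w j) 0 0 d := by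
      intro d
      rw [← add_sum_erase _ _ he, h1]
      exact congrArg _ (sum_congr rfl fun j hj => by rw [h2 j hj]; rfl)
    have h4 := hr e he
    have h5 := Nat.mul_le_mul h4 (hw e he)
    have h6 := Nat.mul_le_mul h4 (Nat.mul_le_mul (hw e he) (hw e he))
    simp only [h3, Nat.forall_lt_succ_right, Nat.not_lt_zero, false_imp_iff, implies_true,
      true_and]
    simp only [dig, cap, cond_true, cond_false, List.getD_cons_zero, List.getD_cons_succ,
      sum_const, smul_eq_mul, mul_one, mul_zero]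
    omega
  constructor
  · intro h
    have h1 := h 3 (by omega)
    have h2 : ∑ j ∈ F, dig R D (tk j) (w j) (r j) (bn j) 3 =
        (F.filter (fun j => tk j = false)).card := by
      rw [card_filter]
      exact sum_congr rfl fun j _ => by cases tk j <;> rfl
    rw [h2] at h1
    obtain ⟨e, he⟩ := card_eq_one.1 h1
    have h3 : e ∈ F.filter (fun j => tk j = false) := he ▸ mem_singleton_self e
    obtain ⟨h3, h4⟩ := mem_filter.1 h3
    have h5 : ∀ j ∈ F.erase e, tk j = true := fun j hj => by
      by_contra hc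
      have : j ∈ F.filter (fun j => tk j = false) :=
        mem_filter.2 ⟨mem_of_mem_erase hj, by simpa using hc⟩
      rw [he] at this
      exact ne_of_mem_erase hj (mem_singleton.1 this)
    obtain ⟨h6, h7, h8, h9⟩ := (key e h3 h4 h5).1 h
    refine ⟨e, h3, h4, h9, fun j hj => ⟨h5 j hj, ?_⟩, h6⟩
    have h10 : ∑ j ∈ F.erase e, ((w j : ℤ) - w e) ^ 2 = 0 := by
      have e1 : ∑ j ∈ F.erase e, (w j : ℤ) = r e * w e := by exact_mod_cast h7
      have e2 : ∑ j ∈ F.erase e, (w j : ℤ) * w j = r e * (w e * w e) := by exact_mod_cast h8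
      rw [sum_congr rfl (g := fun j => (w j : ℤ) * w j - 2 * w e * w j + w e * w e)
        fun j _ => by ring, sum_add_distrib, sum_sub_distrib, ← mul_sum, e1, e2, sum_const, h6]
      simp only [nsmul_eq_mul]
      ring
    have h11 := (sum_eq_zero_iff_of_nonneg fun j _ => sq_nonneg _).1 h10 j hj
    have : (w j : ℤ) = w e := by simpa [sub_eq_zero] using h11
    exact_mod_cast this
  · rintro ⟨e, he, h1, h2, h3, h4⟩
    refine (key e he h1 fun j hj => (h3 j hj).1).2 ⟨h4, ?_, ?_, h2⟩
    · rw [sum_congr rfl fun j hj => (h3 j hj).2, sum_const, h4, smul_eq_mul]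
    · rw [sum_congr rfl (g := fun _ => w e * w e) fun j hj => by rw [(h3 j hj).2], sum_const, h4,
        smul_eq_mul]

theorem sat_iff (C : ℕ) (vid sg w r bn : ℕ → ℕ) (tk : ℕ → Bool) (hv : ∀ s < 4 * C, vid s < 4 * C)
    (hsg : ∀ s, sg s < 2) (htk : ∀ j, tk j = true ↔ j % 8 < 2)
    (hw : ∀ j, w j = if j % 8 < 2 then 2 * vid (j / 8) + j % 8 else
      if j % 8 < 4 then 2 * (j / 8) + (j % 8 - 2) else 2 * vid (j / 8) + sg (j / 8))
    (hr : ∀ j, r j = if j % 8 < 4 then ((range (4 * C)).filter (fun s => vid s = j / 8)).card else 1)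
    (hbn : ∀ j, bn j = if j % 8 < 4 then j / 8 else 4 * C + j / 8 / 4) :
    (∃ β : ℕ → ℕ, (∀ v, β v < 2) ∧ ∀ c < C, ∃ s < 4 * C, s / 4 = c ∧ β (vid s) = sg s) ↔
      ∃ f : ℕ → ℕ, ∀ b < 5 * C, ∃ e ∈ (range (32 * C)).filter (fun j => f j = b),
        tk e = false ∧ bn e = b ∧
        (∀ j ∈ ((range (32 * C)).filter (fun j => f j = b)).erase e, tk j = true ∧ w j = w e) ∧
        (((range (32 * C)).filter (fun j => f j = b)).erase e).card = r e := by
  have htk' : ∀ j, tk j = false ↔ 2 ≤ j % 8 := fun j => by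
    rw [← not_lt, ← htk, Bool.not_eq_true]
  have hinj : ∀ t, Function.Injective (fun s : ℕ => 8 * s + t) := fun t a b h => by
    beta_reduce at h
    omega
  constructor
  · rintro ⟨β, hβ, h⟩
    have h1 : ∀ c, ∃ s, c < C → s < 4 * C ∧ s / 4 = c ∧ β (vid s) = sg s := fun c => by
      by_cases hc : c < C
      · obtain ⟨s, h⟩ := h c hc
        exact ⟨s, fun _ => h⟩
      · exact ⟨0, fun h => (hc h).elim⟩
    choose pk hpk using h1
    set f : ℕ → ℕ := fun j => if j % 8 < 2 ∧ j % 8 ≠ β (vid (j / 8)) then vid (j / 8)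
      else if 2 ≤ j % 8 ∧ j % 8 < 4 ∧ j % 8 - 2 ≠ β (j / 8) then j / 8
      else if (j % 8 < 2 ∨ j % 8 = 4) ∧ j / 8 = pk (j / 8 / 4) then 4 * C + j / 8 / 4
      else 5 * C with hf
    refine ⟨f, fun b hb => ?_⟩
    by_cases hb' : b < 4 * C
    · have h2 := hβ b
      have e1 : (8 * b + (3 - β b)) % 8 = 3 - β b := by omega
      have e2 : (8 * b + (3 - β b)) / 8 = b := by omega
      have h3 : ((range (32 * C)).filter (fun j => f j = b)).erase (8 * b + (3 - β b)) =
          ((range (4 * C)).filter (fun s => vid s = b)).image (fun s => 8 * s + (1 - β b)) := by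
        ext j
        simp only [mem_erase, mem_filter, mem_range, mem_image, hf]
        constructor
        · rintro ⟨h4, h5, h6⟩
          split_ifs at h6 with h7 h8 h9
          · rw [h6] at h7
            exact ⟨j / 8, ⟨by omega, h6⟩, by omega⟩
          · rw [h6] at h8
            omega
          · omega
          · omega
        · rintro ⟨s, ⟨h4, h5⟩, rfl⟩
          have e3 : (8 * s + (1 - β b)) / 8 = s := by omega
          refine ⟨by omega, by omega, ?_⟩
          rw [e3, h5, if_pos (by omega)]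
      refine ⟨8 * b + (3 - β b), mem_filter.2 ⟨mem_range.2 (by omega), ?_⟩, (htk' _).2 (by omega),
        by rw [hbn, if_pos (by omega), e2], ?_, ?_⟩
      · simp only [hf]
        rw [e1, e2, if_neg (by omega), if_pos (by omega)]
      · rw [h3]
        intro j hj
        obtain ⟨s, hs, rfl⟩ := mem_image.1 hj
        have e3 : (8 * s + (1 - β b)) / 8 = s := by omega
        refine ⟨(htk _).2 (by omega), ?_⟩
        rw [hw, hw, e1, e2, e3, (mem_filter.1 hs).2, if_pos (by omega), if_neg (by omega),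
          if_pos (by omega)]
        omega
      · rw [h3, card_image_of_injective _ (hinj _), hr, if_pos (by omega), e2]
    · obtain ⟨c, rfl⟩ : ∃ c, b = 4 * C + c := ⟨b - 4 * C, by omega⟩
      obtain ⟨h2, h3, h4⟩ := hpk c (by omega)
      have h5 := hsg (pk c)
      have e1 : (8 * pk c + 4) % 8 = 4 := by omega
      have e2 : (8 * pk c + 4) / 8 = pk c := by omega
      have e3 : (8 * pk c + sg (pk c)) % 8 = sg (pk c) := by omega
      have e4 : (8 * pk c + sg (pk c)) / 8 = pk c := by omega
      have h6 : ((range (32 * C)).filter (fun j => f j = 4 * C + c)).erase (8 * pk c + 4) =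
          {8 * pk c + sg (pk c)} := by
        ext j
        simp only [mem_erase, mem_filter, mem_range, mem_singleton, hf]
        constructor
        · rintro ⟨h7, h8, h9⟩
          split_ifs at h9 with h10 h11 h12
          · have := hv (j / 8) (by omega)
            omega
          · omega
          · have h13 : j / 8 / 4 = c := by omega
            rw [h13] at h12
            rw [h12.2, h4] at h10
            omega
          · omega
        · rintro rfl
          refine ⟨by omega, by omega, ?_⟩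
          rw [e3, e4, h3, h4, if_neg (by omega), if_neg (by omega), if_pos (by omega)]
      refine ⟨8 * pk c + 4, mem_filter.2 ⟨mem_range.2 (by omega), ?_⟩, (htk' _).2 (by omega),
        by rw [hbn, if_neg (by omega), e2, h3], ?_, ?_⟩
      · simp only [hf]
        rw [e1, e2, h3, if_neg (by omega), if_neg (by omega), if_pos (by omega)]
      · rw [h6]
        intro j hj
        obtain rfl := mem_singleton.1 hj
        refine ⟨(htk _).2 (by omega), ?_⟩
        rw [hw, hw, e1, e2, e3, e4, if_pos h5, if_neg (by omega), if_neg (by omega)]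
      · rw [h6, hr, if_neg (by omega), card_singleton]
  · rintro ⟨f, h⟩
    have h1 : ∀ v, ∃ t < 2, v < 4 * C → ∀ s < 4 * C, vid s = v → f (8 * s + t) = v := by
      intro v
      by_cases hv' : v < 4 * C
      swap
      · exact ⟨0, by omega, fun h => (hv' h).elim⟩
      obtain ⟨e, he, h1, h2, h3, h4⟩ := h v (by omega)
      rw [htk'] at h1
      rw [hbn] at h2
      have h5 : e % 8 < 4 := by
        by_contra hc
        rw [if_neg hc] at h2
        omega
      rw [if_pos h5] at h2
      rw [hr, if_pos h5, h2] at h4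
      refine ⟨e % 8 - 2, by omega, fun _ s hs hs' => ?_⟩
      have h6 : ((range (32 * C)).filter (fun j => f j = v)).erase e =
          ((range (4 * C)).filter (fun s => vid s = v)).image (fun s => 8 * s + (e % 8 - 2)) := by
        refine eq_of_subset_of_card_le (fun j hj => ?_)
          (by rw [card_image_of_injective _ (hinj _), h4])
        obtain ⟨h6, h7⟩ := h3 j hj
        rw [htk] at h6
        rw [hw, hw, if_pos h6, if_neg (by omega), if_pos h5] at h7
        have h8 := mem_range.1 (mem_filter.1 (mem_of_mem_erase hj)).1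
        exact mem_image.2 ⟨j / 8, mem_filter.2 ⟨mem_range.2 (by omega), by omega⟩, by omega⟩
      have h7 : 8 * s + (e % 8 - 2) ∈ ((range (32 * C)).filter (fun j => f j = v)).erase e :=
        h6 ▸ mem_image.2 ⟨s, mem_filter.2 ⟨mem_range.2 hs, hs'⟩, rfl⟩
      exact (mem_filter.1 (mem_of_mem_erase h7)).2
    choose t ht ht' using h1
    refine ⟨fun v => 1 - t v, fun v => by beta_reduce; omega, fun c hc => ?_⟩
    obtain ⟨e, he, h1, h2, h3, h4⟩ := h (4 * C + c) (by omega)
    have h5 := mem_range.1 (mem_filter.1 he).1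
    rw [htk'] at h1
    rw [hbn] at h2
    have h6 : ¬ e % 8 < 4 := by
      intro hc
      rw [if_pos hc] at h2
      omega
    rw [if_neg h6] at h2
    rw [hr, if_neg h6] at h4
    obtain ⟨j, hj⟩ := card_pos.1 (h4 ▸ Nat.one_pos)
    obtain ⟨h7, h8⟩ := h3 j hj
    obtain ⟨h9, h10⟩ := mem_filter.1 (mem_of_mem_erase hj)
    have h9 := mem_range.1 h9
    rw [htk] at h7
    rw [hw, hw, if_pos h7, if_neg (by omega), if_neg h6] at h8
    have h11 := hsg (e / 8)
    have h12 := hv (e / 8) (by omega)
    have h13 := ht (vid (e / 8))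
    have h14 := ht' _ h12 (j / 8) (by omega) (by omega)
    refine ⟨e / 8, by omega, by omega, ?_⟩
    by_contra hc
    beta_reduce at hc
    rw [show 8 * (j / 8) + t (vid (e / 8)) = j by omega] at h14
    omega

/-- The literal in slot `s`; every clause has four slots. -/
def lit (φ : List Cl) (s : ℕ) : Lit :=
  cond (eqB (s - 4 * half (half s)) 0) (φ.getD (half (half s)) ((0, false), (0, false), (0, false))).1
    (cond (eqB (s - 4 * half (half s)) 1)
      (φ.getD (half (half s)) ((0, false), (0, false), (0, false))).2.1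
      (φ.getD (half (half s)) ((0, false), (0, false), (0, false))).2.2)

/-- The slots. -/
def sl (φ : List Cl) : List ℕ := idx (φ ++ φ ++ φ ++ φ)

theorem sl_eq (φ : List Cl) : sl φ = List.range (4 * φ.length) := by
  simp only [sl, idx, List.length_append]
  congr 1
  omega

/-- The rank of the variable in slot `s`. -/
def vid (φ : List Cl) (s : ℕ) : ℕ :=
  ((sl φ).filter (fun s' => ltB (lit φ s').1 (lit φ s).1)).length

/-- The sign of the literal in slot `s`. -/
def sg (φ : List Cl) (s : ℕ) : ℕ := cond (lit φ s).2 1 0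

/-- The number of slots of a variable. -/
def rk (φ : List Cl) (v : ℕ) : ℕ := ((sl φ).filter (fun s => eqB (vid φ s) v)).length

/-- Division by eight. -/
def q8 (j : ℕ) : ℕ := half (half (half j))

/-- Remainder modulo eight. -/
def m8 (j : ℕ) : ℕ := j - 8 * q8 j

theorem q8_eq (j : ℕ) : q8 j = j / 8 := by
  unfold q8 half
  omega

theorem m8_eq (j : ℕ) : m8 j = j % 8 := by
  rw [m8, q8_eq]
  omega

/-- The label of an item. -/
def wI (φ : List Cl) (j : ℕ) : ℕ := cond (ltB (m8 j) 2) (2 * vid φ (q8 j) + m8 j)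
  (cond (ltB (m8 j) 4) (2 * q8 j + (m8 j - 2)) (2 * vid φ (q8 j) + sg φ (q8 j)))

/-- The number of tokens a selector asks for. -/
def rI (φ : List Cl) (j : ℕ) : ℕ := cond (ltB (m8 j) 4) (rk φ (q8 j)) 1

/-- The bin of a selector. -/
def bnI (φ : List Cl) (j : ℕ) : ℕ :=
  cond (ltB (m8 j) 4) (q8 j) (4 * φ.length + half (half (q8 j)))

/-- The base. -/
def wb (φ : List Cl) : ℕ :=
  (32 * φ.length + 2) * (32 * φ.length + 2) * (32 * φ.length + 2) * (32 * φ.length + 2)

/-- The digits of an item. -/
def dI (φ : List Cl) (j : ℕ) : ℕ → ℕ :=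
  dig (4 * φ.length + 1) (8 * φ.length) (ltB (m8 j) 2) (wI φ j) (rI φ j) (bnI φ j)

/-- The size of an item. -/
def sz (φ : List Cl) (j : ℕ) : ℕ := hor (wb φ) (dI φ j) 5

/-- The capacity of a bin. -/
def cp (φ : List Cl) (b : ℕ) : ℕ := hor (wb φ) (cap (4 * φ.length + 1) (8 * φ.length) b) 5

/-- A list whose length is the product of the lengths. -/
def umul (l l' : List ℕ) : List ℕ := l.flatMap (fun _ => l')

@[simp] theorem length_umul (l l' : List ℕ) : (umul l l').length = l.length * l'.length := by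
  simp [umul, List.length_flatMap]

/-- A list whose length is a power of the length of `l`. -/
def upow (l : List ℕ) : ℕ → List ℕ
  | 0 => [0]
  | k + 1 => umul l (upow l k)

@[simp] theorem length_upow (l : List ℕ) (k : ℕ) : (upow l k).length = l.length ^ k := by
  induction k with
  | zero => rfl
  | succ k ih => rw [upow, length_umul, ih, pow_succ']

/-- The regular items. -/
def its (φ : List Cl) : List ℕ := (idx (umul (sl φ) (List.range 8))).map (sz φ)

/-- The regular bins. -/
def cps (φ : List Cl) : List ℕ := (idx (sl φ ++ idx φ)).map (cp φ)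

theorem its_eq (φ : List Cl) : its φ = (List.range (32 * φ.length)).map (sz φ) := by
  simp only [its, idx, length_umul, sl_eq, List.length_range]
  congr 2
  omega

theorem cps_eq (φ : List Cl) : cps φ = (List.range (5 * φ.length)).map (cp φ) := by
  simp only [cps, idx, sl_eq, List.length_range, List.length_append]
  congr 2
  omega

section poly

variable {α : Type} [N487b59b3 α] {φ : α → List Cl} {s : α → ℕ}

@[fun_prop] theorem p_sum {l : α → List ℕ} (hl : PolyT.Poly l) :
    PolyT.Poly (fun a => (l a).sum) := hl.sum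

@[fun_prop] theorem p_umul {l l' : α → List ℕ} (hl : PolyT.Poly l) (hl' : PolyT.Poly l') :
    PolyT.Poly (fun a => umul (l a) (l' a)) := by
  unfold umul
  fun_prop

theorem p_upow {l : α → List ℕ} (hl : PolyT.Poly l) (k : ℕ) :
    PolyT.Poly (fun a => upow (l a) k) := by
  induction k with
  | zero => exact PolyT.Poly.const _
  | succ k ih => exact p_umul hl ih

@[fun_prop] theorem p_lit (h1 : PolyT.Poly φ) (h2 : PolyT.Poly s) :
    PolyT.Poly (fun a => lit (φ a) (s a)) := by
  unfold lit
  fun_prop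

@[fun_prop] theorem p_sl (h1 : PolyT.Poly φ) : PolyT.Poly (fun a => sl (φ a)) := by
  unfold sl
  fun_prop

@[fun_prop] theorem p_vid (h1 : PolyT.Poly φ) (h2 : PolyT.Poly s) :
    PolyT.Poly (fun a => vid (φ a) (s a)) := by
  unfold vid
  fun_prop

@[fun_prop] theorem p_sg (h1 : PolyT.Poly φ) (h2 : PolyT.Poly s) :
    PolyT.Poly (fun a => sg (φ a) (s a)) := by
  unfold sg
  fun_prop

@[fun_prop] theorem p_rk (h1 : PolyT.Poly φ) (h2 : PolyT.Poly s) :
    PolyT.Poly (fun a => rk (φ a) (s a)) := by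
  unfold rk
  fun_prop

@[fun_prop] theorem p_q8 (h2 : PolyT.Poly s) : PolyT.Poly (fun a => q8 (s a)) := by
  unfold q8
  fun_prop

@[fun_prop] theorem p_m8 (h2 : PolyT.Poly s) : PolyT.Poly (fun a => m8 (s a)) := by
  unfold m8
  fun_prop

@[fun_prop] theorem p_wb (h1 : PolyT.Poly φ) : PolyT.Poly (fun a => wb (φ a)) := by
  unfold wb
  fun_prop

theorem p_dI (h1 : PolyT.Poly φ) (h2 : PolyT.Poly s) (d : ℕ) :
    PolyT.Poly (fun a => dI (φ a) (s a) d) := by
  have h3 : PolyT.Poly (fun a => wI (φ a) (s a)) := by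
    unfold wI
    fun_prop
  have h4 : PolyT.Poly (fun a => rI (φ a) (s a)) := by
    unfold rI
    fun_prop
  have h5 : PolyT.Poly (fun a => bnI (φ a) (s a)) := by
    unfold bnI
    fun_prop
  unfold dI dig
  fun_prop

@[fun_prop] theorem p_sz (h1 : PolyT.Poly φ) (h2 : PolyT.Poly s) :
    PolyT.Poly (fun a => sz (φ a) (s a)) := p_hor (p_wb h1) (p_dI h1 h2) 5

@[fun_prop] theorem p_cp (h1 : PolyT.Poly φ) (h2 : PolyT.Poly s) :
    PolyT.Poly (fun a => cp (φ a) (s a)) :=
  p_hor (p_wb h1) (fun d => by unfold cap; fun_prop) 5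

theorem p_its (h1 : PolyT.Poly φ) : PolyT.Poly (fun a => its (φ a)) := by
  unfold its
  fun_prop

theorem p_cps (h1 : PolyT.Poly φ) : PolyT.Poly (fun a => cps (φ a)) := by
  unfold cps
  fun_prop

end poly

theorem length_filter_range (n : ℕ) (p : ℕ → Bool) :
    ((List.range n).filter p).length = ((range n).filter (fun s => p s = true)).card := by
  simp [Finset.card, Finset.filter, Finset.range, Multiset.range]

theorem vid_lt {φ : List Cl} {s s' : ℕ} (hs : s < 4 * φ.length) (h : (lit φ s).1 < (lit φ s').1) :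
    vid φ s < vid φ s' := by
  simp only [vid, sl_eq, length_filter_range, ltB_iff]
  refine card_lt_card ⟨fun x hx => ?_, fun hc => ?_⟩
  · rw [mem_filter] at hx ⊢
    exact ⟨hx.1, hx.2.trans h⟩
  · exact lt_irrefl _ (mem_filter.1 (hc (mem_filter.2 ⟨mem_range.2 hs, h⟩))).2

theorem vid_bd {φ : List Cl} {s : ℕ} (hs : s < 4 * φ.length) : vid φ s < 4 * φ.length := by
  simp only [vid, sl_eq, length_filter_range, ltB_iff]
  refine (card_lt_card ⟨filter_subset _ _, fun hc => ?_⟩).trans_eq (card_range _)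
  exact lt_irrefl _ (mem_filter.1 (hc (mem_range.2 hs))).2

theorem vid_inj {φ : List Cl} {s s' : ℕ} (hs : s < 4 * φ.length) (hs' : s' < 4 * φ.length)
    (h : vid φ s = vid φ s') : (lit φ s).1 = (lit φ s').1 := by
  rcases lt_trichotomy (lit φ s).1 (lit φ s').1 with h1 | h1 | h1
  · exact absurd h (vid_lt hs h1).ne
  · exact h1
  · exact absurd h (vid_lt hs' h1).ne'

theorem lit_eq (φ : List Cl) {c : ℕ} (hc : c < φ.length) {s : ℕ} (hs : s / 4 = c) :
    lit φ s = if s % 4 = 0 then φ[c].1 else if s % 4 = 1 then φ[c].2.1 else φ[c].2.2 := by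
  have h1 : half (half s) = c := by
    unfold half
    omega
  have h2 : s - 4 * c = s % 4 := by omega
  simp only [lit, h1, h2, List.getD_eq_getElem _ _ hc, eqB, Bool.cond_decide]

theorem sat3_iff (φ : List Cl) : Sat3 φ ↔ ∃ β : ℕ → ℕ, (∀ v, β v < 2) ∧
    ∀ c < φ.length, ∃ s < 4 * φ.length, s / 4 = c ∧ β (vid φ s) = sg φ s := by
  classical
  constructor
  · rintro ⟨β, h⟩
    refine ⟨fun v => if ∃ s < 4 * φ.length, vid φ s = v ∧ β (lit φ s).1 = true then 1 else 0,
      fun v => by beta_reduce; split_ifs <;> omega, fun c hc => ?_⟩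
    obtain ⟨s, h1, h2, h3⟩ : ∃ s < 4 * φ.length, s / 4 = c ∧ β (lit φ s).1 = (lit φ s).2 := by
      rcases h _ (List.getElem_mem hc) with h | h | h
      · refine ⟨4 * c, by omega, by omega, ?_⟩
        rw [lit_eq φ hc (by omega), if_pos (by omega)]
        exact h
      · refine ⟨4 * c + 1, by omega, by omega, ?_⟩
        rw [lit_eq φ hc (by omega), if_neg (by omega), if_pos (by omega)]
        exact h
      · refine ⟨4 * c + 2, by omega, by omega, ?_⟩
        rw [lit_eq φ hc (by omega), if_neg (by omega), if_neg (by omega)]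
        exact h
    refine ⟨s, h1, h2, ?_⟩
    unfold sg
    rw [← h3]
    beta_reduce
    split_ifs with h4
    · obtain ⟨s', h5, h6, h7⟩ := h4
      rw [← vid_inj h5 h1 h6, h7]
      rfl
    · have : β (lit φ s).1 = false := by
        by_contra hc
        exact h4 ⟨s, h1, rfl, by simpa using hc⟩
      rw [this]
      rfl
  · rintro ⟨β, -, h⟩
    refine ⟨fun x => decide (β ((sl φ).filter (fun s' => ltB (lit φ s').1 x)).length = 1),
      fun C hC => ?_⟩
    obtain ⟨c, hc, rfl⟩ := List.getElem_of_mem hC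
    obtain ⟨s, -, h2, h3⟩ := h c hc
    have h4 : decide (β (vid φ s) = 1) = (lit φ s).2 := by
      rw [h3, sg]
      cases (lit φ s).2 <;> rfl
    unfold vid at h4
    have h5 := lit_eq φ hc h2
    generalize lit φ s = L at h4 h5
    subst h5
    unfold Cl.Holds
    split_ifs at h4
    exacts [Or.inl h4, Or.inr (Or.inl h4), Or.inr (Or.inr h4)]

theorem dI_bd {φ : List Cl} {j : ℕ} (hj : j < 32 * φ.length) :
    rI φ j ≤ 4 * φ.length + 1 ∧ wI φ j ≤ 8 * φ.length ∧ bnI φ j ≤ 8 * φ.length := by
  have h1 := vid_bd (φ := φ) (s := j / 8) (by omega)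
  have h2 : sg φ (j / 8) < 2 := by
    unfold sg
    cases (lit φ (j / 8)).2 <;> simp
  have h3 : rk φ (j / 8) ≤ 4 * φ.length := (List.length_filter_le _ _).trans (by simp [sl_eq])
  simp only [rI, wI, bnI, m8_eq, q8_eq, ltB, Bool.cond_decide, half]
  split_ifs <;> omega

theorem cap_le (C b d : ℕ) (hb : b ≤ 8 * C) : cap (4 * C + 1) (8 * C) b d ≤ (8 * C + 1) ^ 3 := by
  have h : (8 * C + 1) ^ 3 = 512 * C ^ 3 + 192 * C ^ 2 + 24 * C + 1 := by ring
  rw [h]
  unfold cap
  rcases d with _ | _ | _ | _ | _ | d <;> simp only [List.getD_cons_zero, List.getD_cons_succ,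
    List.getD_nil] <;> nlinarith [Nat.zero_le (C ^ 3), Nat.zero_le (C ^ 2)]

theorem dI_le {φ : List Cl} {j : ℕ} (hj : j < 32 * φ.length) (d : ℕ) :
    dI φ j d ≤ (8 * φ.length + 1) ^ 3 := by
  obtain ⟨-, h2, h3⟩ := dI_bd hj
  refine le_trans ?_ (cap_le φ.length (bnI φ j) d h3)
  have h4 := Nat.mul_le_mul h2 h2
  unfold dI dig cap
  cases ltB (m8 j) 2 <;> rcases d with _ | _ | _ | _ | _ | d <;>
    simp only [List.getD_cons_zero, List.getD_cons_succ, List.getD_nil, cond_true, cond_false] <;>
    first | omega | nlinarith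

theorem lt_wb (φ : List Cl) : (32 * φ.length + 1) * (8 * φ.length + 1) ^ 3 < wb φ := by
  have h1 : (8 * φ.length + 1) ^ 3 ≤ (32 * φ.length + 2) ^ 3 := Nat.pow_le_pow_left (by omega) 3
  have h2 : 0 < (32 * φ.length + 2) ^ 3 := by positivity
  calc _ ≤ (32 * φ.length + 1) * (32 * φ.length + 2) ^ 3 := Nat.mul_le_mul_left _ h1
    _ < (32 * φ.length + 2) * (32 * φ.length + 2) ^ 3 := Nat.mul_lt_mul_of_pos_right (by omega) h2
    _ = wb φ := by unfold wb; ring

theorem sat3_exact (φ : List Cl) :
    Sat3 φ ↔ ExactF (32 * φ.length) (5 * φ.length) (sz φ) (cp φ) := by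
  rw [sat3_iff, sat_iff φ.length (vid φ) (sg φ) (wI φ) (rI φ) (bnI φ) (fun j => ltB (m8 j) 2)
    (fun s => vid_bd) (fun s => by unfold sg; cases (lit φ s).2 <;> simp)
    (fun j => by simp [m8_eq]) (fun j => by simp only [wI, m8_eq, q8_eq, ltB, Bool.cond_decide])
    (fun j => by
      simp only [rI, rk, sl_eq, length_filter_range, m8_eq, q8_eq, ltB, Bool.cond_decide, eqB_iff])
    (fun j => by
      simp only [bnI, m8_eq, q8_eq, ltB, Bool.cond_decide, half]
      split_ifs <;> omega)]
  refine exists_congr fun f => forall₂_congr fun b hb => ?_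
  have h1 : ∀ j ∈ (range (32 * φ.length)).filter (fun j => f j = b), j < 32 * φ.length :=
    fun j hj => mem_range.1 (mem_filter.1 hj).1
  have h2 := lt_wb φ
  rw [← sel_iff (fun j hj => (dI_bd (h1 j hj)).1) (fun j hj => (dI_bd (h1 j hj)).2.1)]
  unfold sz cp
  rw [hor_sum, hor_inj (fun d _ => ?_) (fun d _ => ?_)]
  · rfl
  · refine (sum_le_card_nsmul _ _ _ fun j hj => dI_le (h1 j hj) d).trans_lt (lt_of_le_of_lt ?_ h2)
    exact Nat.mul_le_mul_right _ ((card_filter_le _ _).trans (by simp))
  · exact (cap_le _ _ _ (by omega)).trans_lt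
      (lt_of_le_of_lt (Nat.le_mul_of_pos_left _ (by omega)) h2)

/-- Packing for lists of sizes and capacities. -/
def PackL (s B : List ℕ) : Prop :=
  PackF s.length B.length (fun j => s.getD j 0) (fun b => B.getD b 0)

theorem sum_map_range (n : ℕ) (f : ℕ → ℕ) : ((List.range n).map f).sum = ∑ j ∈ range n, f j := rfl

/-- Bin packing in unary is NP-hard, also when the total size equals the total capacity. -/
theorem binpack : ∃ s B R : List Cl → List ℕ, PolyT.Poly s ∧ PolyT.Poly B ∧ PolyT.Poly R ∧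
    ∀ φ, s φ ≠ [] ∧ B φ ≠ [] ∧ (∀ x ∈ s φ, 2 ≤ x) ∧ (∀ x ∈ B φ, 2 ≤ x) ∧ (s φ).sum = (B φ).sum ∧
      (s φ).sum ≤ (R φ).length ∧ (Sat3 φ ↔ PackL (s φ) (B φ)) := by
  have p1 := p_its (α := List Cl) PolyT.Poly.id
  have p2 := p_cps (α := List Cl) PolyT.Poly.id
  refine ⟨fun φ => its φ ++ [(cps φ).sum + 2], fun φ => cps φ ++ [(its φ).sum + 2],
    fun φ => upow (umul (sl φ) (List.range 8) ++ [0, 0]) 26, by fun_prop, by fun_prop,
    p_upow (by fun_prop) 26, fun φ => ?_⟩
  have h1 := lt_wb φ
  have h2 : 0 < (8 * φ.length + 1) ^ 3 := by positivity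
  have h3 : (8 * φ.length + 1) ^ 3 < wb φ := lt_of_le_of_lt (Nat.le_mul_of_pos_left _ (by omega)) h1
  refine ⟨by simp, by simp, fun x hx => ?_, fun x hx => ?_, ?_, ?_, ?_⟩
  · simp only [its_eq, List.mem_append, List.mem_map, List.mem_range, List.mem_singleton] at hx
    rcases hx with ⟨j, -, rfl⟩ | rfl
    · unfold sz dI dig
      cases ltB (m8 j) 2
      · exact le_hor (d := 3) (by omega) (by omega) le_rfl
      · exact le_hor (d := 0) (by omega) (by omega) le_rfl
    · omega
  · simp only [cps_eq, List.mem_append, List.mem_map, List.mem_range, List.mem_singleton] at hx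
    rcases hx with ⟨j, -, rfl⟩ | rfl
    · exact le_hor (d := 3) (by omega) (by omega) le_rfl
    · omega
  · simp only [List.sum_append, List.sum_singleton]
    omega
  · have h4 : (its φ).sum ≤ 32 * φ.length * wb φ ^ 6 := by
      rw [its_eq, sum_map_range]
      refine (sum_le_card_nsmul _ _ (wb φ ^ 6) fun j hj => ?_).trans (by simp)
      exact (Nat.le_add_right _ _).trans
        (hor_le (k := 5) fun d _ => (dI_le (mem_range.1 hj) d).trans_lt h3)
    have h5 : (cps φ).sum ≤ 5 * φ.length * wb φ ^ 6 := by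
      rw [cps_eq, sum_map_range]
      refine (sum_le_card_nsmul _ _ (wb φ ^ 6) fun j hj => ?_).trans (by simp)
      have := mem_range.1 hj
      exact (Nat.le_add_right _ _).trans
        (hor_le (k := 5) fun d _ => (cap_le _ _ _ (by omega)).trans_lt h3)
    have h6 : 1 ≤ wb φ ^ 6 := Nat.one_le_pow _ _ (by omega)
    have h7 : (umul (sl φ) (List.range 8) ++ [0, 0]).length = 32 * φ.length + 2 := by
      simp [sl_eq]
      omega
    have h8 : (32 * φ.length + 2) ^ 26 = (32 * φ.length + 2) ^ 2 * wb φ ^ 6 := by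
      unfold wb
      generalize 32 * φ.length + 2 = x
      ring
    simp only [List.sum_append, List.sum_singleton, length_upow, h7, h8]
    nlinarith [Nat.zero_le (φ.length ^ 2 * wb φ ^ 6), Nat.zero_le (φ.length * wb φ ^ 6)]
  · have e1 : (its φ).length = 32 * φ.length := by simp [its_eq]
    have e2 : (cps φ).length = 5 * φ.length := by simp [cps_eq]
    rw [sat3_exact, PackL]
    simp only [List.length_append, List.length_singleton, e1, e2]
    refine (garbage _ _ _ _ _ _ (fun j hj => ?_) ?_ (fun j hj => ?_) ?_).symm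
    · rw [List.getD_append _ _ _ _ (e1 ▸ hj)]
      simp [its_eq, hj]
    · rw [List.getD_append_right _ _ _ _ e1.le, e1, Nat.sub_self, cps_eq]
      rfl
    · rw [List.getD_append _ _ _ _ (e2 ▸ hj)]
      simp [cps_eq, hj]
    · rw [List.getD_append_right _ _ _ _ e2.le, e2, Nat.sub_self, its_eq]
      rfl

end Pool.Agent.H8
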